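import Mathlib

namespace Helper804Obstruct

/-- position `t` is red -/
def redPos (L k t : ℕ) : Prop := L ≤ t % (L + 2) ∨ k * (L + 2) ≤ t

instance (L k t : ℕ) : Decidable (redPos L k t) := by unfold redPos; infer_instance

def sgn (L k t : ℕ) : ℤ := if redPos L k t then -1 else 1

def ht (L k t : ℕ) : ℤ := ∑ s ∈ Finset.range t, sgn L k s

lemma redPos_block (L k i : ℕ) (hi : i < k) (o : ℕ) (ho : o < L + 2) :
    redPos L k (i * (L + 2) + o) ↔ L ≤ o := by
  have hmod : (i * (L + 2) + o) % (L + 2) = o := by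
    rw [Nat.mul_comm, Nat.mul_add_mod]
    exact Nat.mod_eq_of_lt (by omega)
  have hlt : i * (L + 2) + o < k * (L + 2) := by
    have : (i + 1) * (L + 2) ≤ k * (L + 2) := Nat.mul_le_mul_right _ hi
    have h2 : (i + 1) * (L + 2) = i * (L + 2) + (L + 2) := by ring
    omega
  unfold redPos
  rw [hmod]
  constructor
  · rintro (h | h)
    · exact h
    · omega
  · intro h
    exact Or.inl h

lemma ht_block (L k i : ℕ) (hi : i < k) (o : ℕ) (ho : o ≤ L + 2) :
    ht L k (i * (L + 2) + o) = ht L k (i * (L + 2)) + (if o ≤ L then (o : ℤ) else 2 * L - o) := by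
  induction o with
  | zero => simp
  | succ o ih =>
    have ih' := ih (by omega)
    have hstep : ht L k (i * (L + 2) + (o + 1)) = ht L k (i * (L + 2) + o) + sgn L k (i * (L + 2) + o) := by
      unfold ht
      rw [← add_assoc, Finset.sum_range_succ]
    have hs : sgn L k (i * (L + 2) + o) = if L ≤ o then -1 else 1 := by
      unfold sgn
      exact if_congr (redPos_block L k i hi o (by omega)) rfl rfl
    rw [hstep, ih', hs]
    by_cases h1 : L ≤ o
    · by_cases h2 : o ≤ L
      · have : o = L := le_antisymm h2 h1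
        subst this
        simp
        ring
      · have h3 : ¬ (o + 1 ≤ L) := by omega
        simp [h1, h2, h3]
        ring
    · have h2 : o ≤ L := by omega
      have h3 : o + 1 ≤ L := by omega
      simp [h1, h2, h3]
      ring

lemma ht_start (L k i : ℕ) (hi : i ≤ k) : ht L k (i * (L + 2)) = i * ((L : ℤ) - 2) := by
  induction i with
  | zero => simp [ht]
  | succ i ih =>
    have h := ht_block L k i hi (L + 2) le_rfl
    have e : (i + 1) * (L + 2) = i * (L + 2) + (L + 2) := by ring
    rw [e, h, ih (by omega)]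
    have : ¬ (L + 2 ≤ L) := by omega
    simp [this]
    ring

lemma ht_eq (L k i : ℕ) (hi : i < k) (o : ℕ) (ho : o ≤ L + 2) :
    ht L k (i * (L + 2) + o) = i * ((L : ℤ) - 2) + (if o ≤ L then (o : ℤ) else 2 * L - o) := by
  rw [ht_block L k i hi o ho, ht_start L k i hi.le]

lemma ht_diff (L k x y : ℕ) (hxy : x ≤ y) :
    ht L k y - ht L k x =
      (((Finset.Ico x y).filter (fun t => ¬ redPos L k t)).card : ℤ)
        - ((Finset.Ico x y).filter (fun t => redPos L k t)).card := by
  unfold ht
  rw [← Finset.sum_Ico_eq_sub _ hxy]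
  unfold sgn
  rw [Finset.sum_ite]
  simp
  ring

/-- the data on positions -/
structure Mat (L k n T : ℕ) (E : Finset (ℕ × ℕ)) : Prop where
  lt1 : ∀ e ∈ E, e.1 < n
  lt2 : ∀ e ∈ E, e.2 < n
  red : ∀ e ∈ E, redPos L k e.1
  blue : ∀ e ∈ E, ¬ redPos L k e.2
  deg1 : ∀ a, (E.filter (fun e => e.1 = a)).card ≤ 2
  deg2 : ∀ b, (E.filter (fun e => e.2 = b)).card ≤ 2
  nc : ∀ e ∈ E, ∀ f ∈ E, e.1 ≠ f.1 → e.2 ≠ f.2 →
    ¬ (min e.1 e.2 < min f.1 f.2 ∧ min f.1 f.2 < max e.1 e.2 ∧ max e.1 e.2 < max f.1 f.2)
  tot : 2 * n ≤ 2 * E.card + T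

section
variable {L k n T : ℕ} {E : Finset (ℕ × ℕ)}

lemma card_red_add_blue (L k n : ℕ) :
    ((Finset.range n).filter (fun t => redPos L k t)).card
      + ((Finset.range n).filter (fun t => ¬ redPos L k t)).card = n := by
  rw [Finset.card_filter_add_card_filter_not]
  simp

lemma Mat.card_le_red (h : Mat L k n T E) :
    E.card ≤ 2 * ((Finset.range n).filter (fun t => redPos L k t)).card := by
  apply Finset.card_le_mul_card_image_of_maps_to (f := Prod.fst)
  · intro e he
    simp only [Finset.mem_filter, Finset.mem_range]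
    exact ⟨h.lt1 e he, h.red e he⟩
  · intro b _
    exact h.deg1 b

lemma Mat.level (h : Mat L k n T E) (a b : ℕ) (hab : (a, b) ∈ E) :
    2 * ((Finset.Ico (min a b + 1) (max a b)).filter (fun t => ¬ redPos L k t)).card
      ≤ 2 * ((Finset.Ico (min a b + 1) (max a b)).filter (fun t => redPos L k t)).card + T + 1 := by
  set A := Finset.Ico (min a b + 1) (max a b) with hA
  have hra := h.red _ hab
  have hbb := h.blue _ hab
  have han := h.lt1 _ hab
  have hbn := h.lt2 _ hab
  simp only at hra hbb han hbn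
  have hne : a ≠ b := fun hh => hbb (hh ▸ hra)
  set E1 := E.filter (fun e => e.1 ∈ A) with hE1
  set E2 := E.filter (fun e => e.2 ∈ A) with hE2
  set E3 := E.filter (fun e => ¬ e.2 ∈ A) with hE3
  have hsplit : E2.card + E3.card = E.card := Finset.card_filter_add_card_filter_not _
  set blueF := (Finset.range n).filter (fun t => ¬ redPos L k t) with hblueF
  set redF := (Finset.range n).filter (fun t => redPos L k t) with hredF
  have hnb : redF.card + blueF.card = n := card_red_add_blue L k n
  set Ab := A.filter (fun t => ¬ redPos L k t) with hAb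
  set Ar := A.filter (fun t => redPos L k t) with hAr
  have hAn : ∀ t ∈ A, t < n := by
    intro t ht
    rw [hA, Finset.mem_Ico] at ht
    have : max a b < n := max_lt han hbn
    omega
  have hAb_sub : Ab ⊆ blueF := by
    intro t ht
    rw [hAb, Finset.mem_filter] at ht
    rw [hblueF, Finset.mem_filter, Finset.mem_range]
    exact ⟨hAn t ht.1, ht.2⟩
  have h3 : E3.card ≤ 2 * (blueF \ Ab).card := by
    apply Finset.card_le_mul_card_image_of_maps_to (f := Prod.snd)
    · intro e he
      rw [hE3, Finset.mem_filter] at he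
      rw [Finset.mem_sdiff, hblueF, Finset.mem_filter, Finset.mem_range, hAb, Finset.mem_filter]
      exact ⟨⟨h.lt2 e he.1, h.blue e he.1⟩, fun hh => he.2 hh.1⟩
    · intro c _
      refine le_trans (Finset.card_le_card ?_) (h.deg2 c)
      intro e he
      rw [Finset.mem_filter] at he ⊢
      exact ⟨(Finset.mem_filter.mp he.1).1, he.2⟩
  have h3' : (blueF \ Ab).card = blueF.card - Ab.card := Finset.card_sdiff_of_subset hAb_sub
  have hAb_le : Ab.card ≤ blueF.card := Finset.card_le_card hAb_sub
  have hEr : E.card ≤ 2 * redF.card := h.card_le_red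
  have h1 : E1.card ≤ 2 * Ar.card := by
    apply Finset.card_le_mul_card_image_of_maps_to (f := Prod.fst)
    · intro e he
      rw [hE1, Finset.mem_filter] at he
      rw [hAr, Finset.mem_filter]
      exact ⟨he.2, h.red e he.1⟩
    · intro c _
      refine le_trans (Finset.card_le_card ?_) (h.deg1 c)
      intro e he
      rw [Finset.mem_filter] at he ⊢
      exact ⟨(Finset.mem_filter.mp he.1).1, he.2⟩
  have h2 : E2.card ≤ E1.card + 1 := by
    have hsub : E2 ⊆ E1 ∪ (E.filter (fun e => e.1 = a)).erase (a, b) := by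
      intro e he
      rw [hE2, Finset.mem_filter] at he
      obtain ⟨heE, heA⟩ := he
      have hemem := heA
      rw [hA, Finset.mem_Ico] at heA
      rw [Finset.mem_union]
      by_cases hea : e.1 = a
      · right
        rw [Finset.mem_erase, Finset.mem_filter]
        refine ⟨?_, heE, hea⟩
        intro heq
        rw [heq] at heA
        simp only at heA
        omega
      · left
        rw [hE1, Finset.mem_filter]
        refine ⟨heE, ?_⟩
        have heb : e.2 ≠ b := by
          intro hh
          rw [hh] at heA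
          omega
        have her := h.red e heE
        have hne1 : e.1 ≠ b := fun hh => hbb (hh ▸ her)
        have c1 := h.nc e heE (a, b) hab hea heb
        have c2 := h.nc (a, b) hab e heE (Ne.symm hea) (Ne.symm heb)
        simp only at c1 c2
        rw [hA, Finset.mem_Ico]
        by_contra hcon
        have hne2 : e.1 ≠ e.2 := fun hh => h.blue e heE (hh ▸ her)
        rcases lt_or_ge e.1 (min a b) with hlt | hge
        · apply c1
          have m1 : min e.1 e.2 = e.1 := by omega
          have m2 : max e.1 e.2 = e.2 := by omega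
          rw [m1, m2]
          omega
        · have hgt : max a b < e.1 := by omega
          apply c2
          have m1 : min e.1 e.2 = e.2 := by omega
          have m2 : max e.1 e.2 = e.1 := by omega
          rw [m1, m2]
          omega
    have hcard : ((E.filter (fun e => e.1 = a)).erase (a, b)).card ≤ 1 := by
      rw [Finset.card_erase_of_mem]
      · have := h.deg1 a
        omega
      · rw [Finset.mem_filter]
        exact ⟨hab, rfl⟩
    calc E2.card ≤ (E1 ∪ (E.filter (fun e => e.1 = a)).erase (a, b)).card := Finset.card_le_card hsub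
      _ ≤ E1.card + ((E.filter (fun e => e.1 = a)).erase (a, b)).card := Finset.card_union_le _ _
      _ ≤ E1.card + 1 := by omega
  have htot := h.tot
  omega


lemma Mat.level_ht (h : Mat L k n T E) (a b : ℕ) (hab : (a, b) ∈ E) :
    2 * (ht L k (max a b) - ht L k (min a b + 1)) ≤ (T : ℤ) + 1 := by
  have hne : a ≠ b := fun hh => (h.blue _ hab) (by simpa [← hh] using h.red _ hab)
  have hle : min a b + 1 ≤ max a b := by omega
  rw [ht_diff L k _ _ hle]
  have := h.level a b hab
  omega

lemma Mat.near (h : Mat L k n T E) (hL : T + 8 ≤ 2 * L) (i : ℕ) (hi : i + 1 < k) (ε : ℕ) (hε : ε ≤ 1)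
    (b : ℕ) (hab : (i * (L + 2) + (L + ε), b) ∈ E) :
    (i * (L + 2) ≤ b ∧ b < i * (L + 2) + L) ∨
      ((i + 1) * (L + 2) ≤ b ∧ b < (i + 1) * (L + 2) + L) := by
  have hb := h.blue _ hab
  simp only [redPos, not_or, not_le] at hb
  obtain ⟨hb1, hb2⟩ := hb
  set l := b / (L + 2) with hl
  set o := b % (L + 2) with ho
  have hbe : b = l * (L + 2) + o := (Nat.div_add_mod' b (L + 2)).symm
  have hlk : l < k := by
    by_contra hcon
    push Not at hcon
    have : k * (L + 2) ≤ l * (L + 2) := Nat.mul_le_mul_right _ hcon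
    omega
  have hlev := h.level_ht _ _ hab
  rcases lt_trichotomy l i with hli | hli | hli
  · exfalso
    have h1 : (l + 1) * (L + 2) ≤ i * (L + 2) := Nat.mul_le_mul_right _ hli
    have h2 : (l + 1) * (L + 2) = l * (L + 2) + (L + 2) := by ring
    have hmin : min (i * (L + 2) + (L + ε)) b = b := by omega
    have hmax : max (i * (L + 2) + (L + ε)) b = i * (L + 2) + (L + ε) := by omega
    rw [hmin, hmax, hbe, ht_eq L k i (by omega) (L + ε) (by omega), add_assoc,
      ht_eq L k l hlk (o + 1) (by omega)] at hlev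
    have e1 : (if L + ε ≤ L then ((L + ε : ℕ) : ℤ) else 2 * L - ((L + ε : ℕ) : ℤ)) = L - ε := by
      split_ifs with hc
      · have : ε = 0 := by omega
        subst this
        simp
      · push_cast
        ring
    have e2 : (if o + 1 ≤ L then ((o + 1 : ℕ) : ℤ) else 2 * L - ((o + 1 : ℕ) : ℤ)) = o + 1 := by
      rw [if_pos (by omega)]
      push_cast
      ring
    rw [e1, e2] at hlev
    have hil : (l : ℤ) + 1 ≤ i := by exact_mod_cast hli
    have hoL : (o : ℤ) + 1 ≤ L := by exact_mod_cast hb1
    have hε' : (ε : ℤ) ≤ 1 := by exact_mod_cast hε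
    have hLT : (T : ℤ) + 8 ≤ 2 * L := by exact_mod_cast hL
    have hT0 : (0 : ℤ) ≤ T := by positivity
    nlinarith [mul_nonneg (sub_nonneg.mpr hil) (by linarith : (0 : ℤ) ≤ (L : ℤ) - 2)]
  · left
    rw [hbe, hli]
    omega
  · rcases Nat.lt_or_ge l (i + 2) with hl2 | hl2
    · right
      have : l = i + 1 := by omega
      rw [hbe, this]
      omega
    · exfalso
      have h1 : (i + 2) * (L + 2) ≤ l * (L + 2) := Nat.mul_le_mul_right _ hl2
      have h2 : (i + 2) * (L + 2) = i * (L + 2) + 2 * (L + 2) := by ring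
      have hmin : min (i * (L + 2) + (L + ε)) b = i * (L + 2) + (L + ε) := by omega
      have hmax : max (i * (L + 2) + (L + ε)) b = b := by omega
      rw [hmin, hmax, add_assoc, ht_eq L k i (by omega) (L + ε + 1) (by omega), hbe,
        ht_eq L k l hlk o (by omega)] at hlev
      have e1 : (if L + ε + 1 ≤ L then ((L + ε + 1 : ℕ) : ℤ) else 2 * L - ((L + ε + 1 : ℕ) : ℤ))
          = L - ε - 1 := by
        rw [if_neg (by omega)]
        push_cast
        ring
      have e2 : (if o ≤ L then (o : ℤ) else 2 * L - (o : ℤ)) = o := if_pos (by omega)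
      rw [e1, e2] at hlev
      have hil : (i : ℤ) + 2 ≤ l := by exact_mod_cast hl2
      have ho0 : (0 : ℤ) ≤ o := by positivity
      have hε' : (0 : ℤ) ≤ ε := by positivity
      have hLT : (T : ℤ) + 8 ≤ 2 * L := by exact_mod_cast hL
      have hT0 : (0 : ℤ) ≤ T := by positivity
      nlinarith [mul_nonneg (sub_nonneg.mpr hil) (by linarith : (0 : ℤ) ≤ (L : ℤ) - 2)]

/-- `v` is a deficient position charged to the bump `i` -/
def Charged (L k : ℕ) (E : Finset (ℕ × ℕ)) (i v : ℕ) : Prop :=
  (∃ ε ≤ 1, v = i * (L + 2) + (L + ε) ∧ (E.filter (fun e => e.1 = v)).card ≤ 1) ∨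
    (¬ redPos L k v ∧ (E.filter (fun e => e.2 = v)).card ≤ 1 ∧
      ∃ ε ≤ 1, (i * (L + 2) + (L + ε), v) ∈ E)

lemma two_edges (E : Finset (ℕ × ℕ)) (r : ℕ) (h : ¬ (E.filter (fun e => e.1 = r)).card ≤ 1) :
    ∃ b1 b2, b1 < b2 ∧ (r, b1) ∈ E ∧ (r, b2) ∈ E := by
  push Not at h
  rw [Finset.one_lt_card] at h
  obtain ⟨⟨a1, b1⟩, he, ⟨a2, b2⟩, hf, hne⟩ := h
  rw [Finset.mem_filter] at he hf
  obtain ⟨he, he1⟩ := he
  obtain ⟨hf, hf1⟩ := hf
  simp only at he1 hf1
  subst he1
  subst hf1
  have hb : b1 ≠ b2 := fun hh => hne (by rw [hh])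
  rcases lt_or_gt_of_ne hb with hlt | hlt
  · exact ⟨b1, b2, hlt, he, hf⟩
  · exact ⟨b2, b1, hlt, hf, he⟩

lemma card_le_one_of (E : Finset (ℕ × ℕ)) (r v : ℕ) (h : ∀ e ∈ E, e.2 = v → e.1 = r) :
    (E.filter (fun e => e.2 = v)).card ≤ 1 := by
  rw [Finset.card_le_one]
  rintro ⟨a1, b1⟩ he ⟨a2, b2⟩ hf
  rw [Finset.mem_filter] at he hf
  have h1 := h _ he.1 he.2
  have h2 := h _ hf.1 hf.2
  have h3 := he.2
  have h4 := hf.2
  simp only at h1 h2 h3 h4
  rw [h1, h2, h3, h4]

lemma Mat.bump (h : Mat L k n T E) (hL : T + 8 ≤ 2 * L) (i : ℕ) (hi : i + 1 < k) :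
    ∃ v, Charged L k E i v := by
  have hblue : ∀ j, j < k → ∀ o, o < L → ¬ redPos L k (j * (L + 2) + o) := by
    intro j hj o ho
    rw [redPos_block L k j hj o (by omega)]
    omega
  have es : (i + 1) * (L + 2) = i * (L + 2) + (L + 2) := by ring
  by_cases hx : ∃ b, (i * (L + 2) + (L + 1), b) ∈ E ∧ b < i * (L + 2) + (L + 0)
  · obtain ⟨b0, hb0, hb0lt⟩ := hx
    have hleft : ∀ b, (i * (L + 2) + (L + 0), b) ∈ E → i * (L + 2) ≤ b ∧ b < i * (L + 2) + L := by
      intro b hb
      rcases h.near hL i hi 0 (by omega) b hb with hh | hh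
      · exact hh
      · exfalso
        have c := h.nc _ hb0 _ hb (by simp) (by simp only; omega)
        simp only at c
        apply c
        omega
    by_cases hd : (E.filter (fun e => e.1 = i * (L + 2) + (L + 0))).card ≤ 1
    · exact ⟨_, Or.inl ⟨0, by omega, rfl, hd⟩⟩
    · obtain ⟨b1, b2, hlt, he1, he2⟩ := two_edges E _ hd
      have l1 := hleft b1 he1
      have l2 := hleft b2 he2
      refine ⟨b2, Or.inr ⟨h.blue _ he2, card_le_one_of E (i * (L + 2) + (L + 0)) b2 ?_, 0, by omega, he2⟩⟩
      rintro ⟨c, d⟩ he hd2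
      simp only at hd2 ⊢
      subst hd2
      by_contra hcne
      have hcr := h.red _ he
      simp only at hcr
      have hcb : ¬ (i * (L + 2) ≤ c ∧ c < i * (L + 2) + L) := by
        intro hcc
        have := hblue i (by omega) (c - i * (L + 2)) (by omega)
        rw [Nat.add_sub_cancel' hcc.1] at this
        exact this hcr
      have c1 := h.nc _ he _ he1 (by simpa using hcne) (by simp only; omega)
      have c2 := h.nc _ he1 _ he (by simpa using Ne.symm hcne) (by simp only; omega)
      simp only at c1 c2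
      rcases lt_or_ge c b1 with hc | hc
      · apply c1
        omega
      · apply c2
        omega
  · push Not at hx
    have hright : ∀ b, (i * (L + 2) + (L + 1), b) ∈ E →
        (i + 1) * (L + 2) ≤ b ∧ b < (i + 1) * (L + 2) + L := by
      intro b hb
      rcases h.near hL i hi 1 (by omega) b hb with hh | hh
      · exfalso
        have := hx b hb
        omega
      · exact hh
    by_cases hd : (E.filter (fun e => e.1 = i * (L + 2) + (L + 1))).card ≤ 1
    · exact ⟨_, Or.inl ⟨1, by omega, rfl, hd⟩⟩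
    · obtain ⟨b1, b2, hlt, he1, he2⟩ := two_edges E _ hd
      have l1 := hright b1 he1
      have l2 := hright b2 he2
      refine ⟨b1, Or.inr ⟨h.blue _ he1, card_le_one_of E (i * (L + 2) + (L + 1)) b1 ?_, 1, by omega, he1⟩⟩
      rintro ⟨c, d⟩ he hd2
      simp only at hd2 ⊢
      subst hd2
      by_contra hcne
      have hcr := h.red _ he
      simp only at hcr
      have hcb : ¬ ((i + 1) * (L + 2) ≤ c ∧ c < (i + 1) * (L + 2) + L) := by
        intro hcc
        have := hblue (i + 1) (by omega) (c - (i + 1) * (L + 2)) (by omega)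
        rw [Nat.add_sub_cancel' hcc.1] at this
        exact this hcr
      have c1 := h.nc _ he _ he2 (by simpa using hcne) (by simp only; omega)
      have c2 := h.nc _ he2 _ he (by simpa using Ne.symm hcne) (by simp only; omega)
      simp only at c1 c2
      rcases lt_or_ge c (i * (L + 2) + (L + 1)) with hc | hc
      · apply c1
        omega
      · apply c2
        omega

lemma bump_inj (L i j ε δ : ℕ) (hε : ε ≤ 1) (hδ : δ ≤ 1)
    (h : i * (L + 2) + (L + ε) = j * (L + 2) + (L + δ)) : i = j := by
  rcases lt_trichotomy i j with hlt | heq | hgt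
  · have h1 : (i + 1) * (L + 2) ≤ j * (L + 2) := Nat.mul_le_mul_right _ hlt
    have h2 : (i + 1) * (L + 2) = i * (L + 2) + (L + 2) := by ring
    omega
  · exact heq
  · have h1 : (j + 1) * (L + 2) ≤ i * (L + 2) := Nat.mul_le_mul_right _ hgt
    have h2 : (j + 1) * (L + 2) = j * (L + 2) + (L + 2) := by ring
    omega

theorem Mat.final (h : Mat L k n T E) (hL : T + 8 ≤ 2 * L) (hn : k * (L + 2) ≤ n + 2) :
    k ≤ T + 1 := by
  classical
  by_contra hcon
  push Not at hcon
  have hv : ∀ i, ∃ v, i + 1 < k → Charged L k E i v := by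
    intro i
    by_cases hi : i + 1 < k
    · obtain ⟨v, hv⟩ := h.bump hL i hi
      exact ⟨v, fun _ => hv⟩
    · exact ⟨0, fun hh => absurd hh hi⟩
  choose v hv using hv
  have hredbump : ∀ i, i + 1 < k → ∀ ε ≤ 1, redPos L k (i * (L + 2) + (L + ε)) := by
    intro i hi ε hε
    rw [redPos_block L k i (by omega) (L + ε) (by omega)]
    omega
  have hinj : Set.InjOn v (Finset.range (k - 1) : Set ℕ) := by
    intro i hi j hj hij
    simp only [Finset.coe_range, Set.mem_Iio] at hi hj
    have ci := hv i (by omega)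
    have cj := hv j (by omega)
    rw [hij] at ci
    rcases ci with ⟨ε, hε, e1, e2⟩ | ⟨e1, e2, ε, hε, e3⟩
    · rcases cj with ⟨δ, hδ, d1, d2⟩ | ⟨d1, d2, δ, hδ, d3⟩
      · exact bump_inj L i j ε δ hε hδ (e1 ▸ d1 ▸ rfl)
      · exfalso
        apply d1
        rw [e1]
        exact hredbump i (by omega) ε hε
    · rcases cj with ⟨δ, hδ, d1, d2⟩ | ⟨d1, d2, δ, hδ, d3⟩
      · exfalso
        apply e1
        rw [d1]
        exact hredbump j (by omega) δ hδ
      · have := Finset.card_le_one.mp e2 _ (Finset.mem_filter.mpr ⟨e3, rfl⟩) _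
          (Finset.mem_filter.mpr ⟨d3, rfl⟩)
        rw [Prod.mk.injEq] at this
        exact bump_inj L i j ε δ hε hδ this.1
  set V := (Finset.range (k - 1)).image v with hV
  have hVcard : V.card = k - 1 := by
    rw [hV, Finset.card_image_of_injOn hinj, Finset.card_range]
  set Vr := V.filter (fun t => redPos L k t) with hVr
  set Vb := V.filter (fun t => ¬ redPos L k t) with hVb
  have hVsplit : Vr.card + Vb.card = V.card := Finset.card_filter_add_card_filter_not _
  set blueF := (Finset.range n).filter (fun t => ¬ redPos L k t) with hblueF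
  set redF := (Finset.range n).filter (fun t => redPos L k t) with hredF
  have hnb : redF.card + blueF.card = n := card_red_add_blue L k n
  have hVr_sub : Vr ⊆ redF := by
    intro t ht
    rw [hVr, Finset.mem_filter, hV, Finset.mem_image] at ht
    obtain ⟨⟨i, hi, rfl⟩, hr⟩ := ht
    rw [Finset.mem_range] at hi
    rw [hredF, Finset.mem_filter, Finset.mem_range]
    refine ⟨?_, hr⟩
    rcases hv i (by omega) with ⟨ε, hε, e1, e2⟩ | ⟨e1, _⟩
    · rw [e1]
      have h1 : (i + 2) * (L + 2) ≤ k * (L + 2) := Nat.mul_le_mul_right _ (by omega)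
      have h2 : (i + 2) * (L + 2) = i * (L + 2) + 2 * (L + 2) := by ring
      omega
    · exact absurd hr e1
  have hVb_sub : Vb ⊆ blueF := by
    intro t ht
    rw [hVb, Finset.mem_filter, hV, Finset.mem_image] at ht
    obtain ⟨⟨i, hi, rfl⟩, hr⟩ := ht
    rw [Finset.mem_range] at hi
    rw [hblueF, Finset.mem_filter, Finset.mem_range]
    refine ⟨?_, hr⟩
    rcases hv i (by omega) with ⟨ε, hε, e1, e2⟩ | ⟨e1, e2, ε, hε, e3⟩
    · exact absurd (e1 ▸ hredbump i (by omega) ε hε) hr
    · exact h.lt2 _ e3
  have hdr : ∀ t ∈ Vr, (E.filter (fun e => e.1 = t)).card ≤ 1 := by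
    intro t ht
    rw [hVr, Finset.mem_filter, hV, Finset.mem_image] at ht
    obtain ⟨⟨i, hi, rfl⟩, hr⟩ := ht
    rw [Finset.mem_range] at hi
    rcases hv i (by omega) with ⟨ε, hε, e1, e2⟩ | ⟨e1, _⟩
    · exact e2
    · exact absurd hr e1
  have hdb : ∀ t ∈ Vb, (E.filter (fun e => e.2 = t)).card ≤ 1 := by
    intro t ht
    rw [hVb, Finset.mem_filter, hV, Finset.mem_image] at ht
    obtain ⟨⟨i, hi, rfl⟩, hr⟩ := ht
    rw [Finset.mem_range] at hi
    rcases hv i (by omega) with ⟨ε, hε, e1, e2⟩ | ⟨e1, e2, ε, hε, e3⟩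
    · exact absurd (e1 ▸ hredbump i (by omega) ε hε) hr
    · exact e2
  have hEr : E.card ≤ 1 * Vr.card + 2 * (redF \ Vr).card := by
    rw [← Finset.card_filter_add_card_filter_not (s := E) (fun e => e.1 ∈ Vr)]
    apply add_le_add
    · apply Finset.card_le_mul_card_image_of_maps_to (f := Prod.fst)
      · intro e he
        exact (Finset.mem_filter.mp he).2
      · intro c hc
        refine le_trans (Finset.card_le_card ?_) (hdr c hc)
        intro e he
        rw [Finset.mem_filter] at he ⊢
        exact ⟨(Finset.mem_filter.mp he.1).1, he.2⟩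
    · apply Finset.card_le_mul_card_image_of_maps_to (f := Prod.fst)
      · intro e he
        rw [Finset.mem_filter] at he
        rw [Finset.mem_sdiff, hredF, Finset.mem_filter, Finset.mem_range]
        exact ⟨⟨h.lt1 e he.1, h.red e he.1⟩, he.2⟩
      · intro c _
        refine le_trans (Finset.card_le_card ?_) (h.deg1 c)
        intro e he
        rw [Finset.mem_filter] at he ⊢
        exact ⟨(Finset.mem_filter.mp he.1).1, he.2⟩
  have hEb : E.card ≤ 1 * Vb.card + 2 * (blueF \ Vb).card := by
    rw [← Finset.card_filter_add_card_filter_not (s := E) (fun e => e.2 ∈ Vb)]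
    apply add_le_add
    · apply Finset.card_le_mul_card_image_of_maps_to (f := Prod.snd)
      · intro e he
        exact (Finset.mem_filter.mp he).2
      · intro c hc
        refine le_trans (Finset.card_le_card ?_) (hdb c hc)
        intro e he
        rw [Finset.mem_filter] at he ⊢
        exact ⟨(Finset.mem_filter.mp he.1).1, he.2⟩
    · apply Finset.card_le_mul_card_image_of_maps_to (f := Prod.snd)
      · intro e he
        rw [Finset.mem_filter] at he
        rw [Finset.mem_sdiff, hblueF, Finset.mem_filter, Finset.mem_range]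
        exact ⟨⟨h.lt2 e he.1, h.blue e he.1⟩, he.2⟩
      · intro c _
        refine le_trans (Finset.card_le_card ?_) (h.deg2 c)
        intro e he
        rw [Finset.mem_filter] at he ⊢
        exact ⟨(Finset.mem_filter.mp he.1).1, he.2⟩
  have s1 : (redF \ Vr).card = redF.card - Vr.card := Finset.card_sdiff_of_subset hVr_sub
  have s2 : (blueF \ Vb).card = blueF.card - Vb.card := Finset.card_sdiff_of_subset hVb_sub
  have s3 : Vr.card ≤ redF.card := Finset.card_le_card hVr_sub
  have s4 : Vb.card ≤ blueF.card := Finset.card_le_card hVb_sub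
  have htot := h.tot
  omega

end
end Helper804Obstruct
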