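import Mathlib

/-!
Points on a small arc of a parabola: chords of interleaved pairs cross, and points can be chosen
one after the other so that the whole set stays in general position.
-/

namespace Helper804Obstruct

/-- twice the signed area of the triangle `p q r` -/
def det (p q r : ℝ × ℝ) : ℝ :=
  (q.1 - p.1) * (r.2 - p.2) - (q.2 - p.2) * (r.1 - p.1)

/-- no three distinct points of `P` are collinear -/
def GeneralPosition (P : Finset (ℝ × ℝ)) : Prop :=
  ∀ p ∈ P, ∀ q ∈ P, ∀ r ∈ P, p ≠ q → q ≠ r → p ≠ r → det p q r ≠ 0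

/-- the point with parameter `s` on the parabola with apex `(a, b)` -/
def par (a b s : ℝ) : ℝ × ℝ := (a + s, b + s ^ 2)

lemma par_inj {a b s t : ℝ} (h : par a b s = par a b t) : s = t := by
  have := congrArg Prod.fst h
  simp only [par] at this
  linarith

lemma par_cross (a b s1 s2 s3 s4 : ℝ) (h12 : s1 < s2) (h23 : s2 < s3) (h34 : s3 < s4) :
    ¬ Disjoint (segment ℝ (par a b s1) (par a b s3)) (segment ℝ (par a b s2) (par a b s4)) := by
  rw [Set.not_disjoint_iff]
  have hd : 0 < (s2 - s1) + (s4 - s3) := by linarith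
  set d := (s2 - s1) + (s4 - s3) with hdd
  set x := (s2 * s4 - s1 * s3) / d with hx
  have hdx : d * x = s2 * s4 - s1 * s3 := by
    rw [hx]
    field_simp
  have e1 : d * (x - s1) = (s2 - s1) * (s4 - s1) := by
    rw [mul_sub, hdx, hdd]
    ring
  have e2 : d * (s3 - x) = (s3 - s2) * (s4 - s3) := by
    rw [mul_sub, hdx, hdd]
    ring
  have e3 : d * (x - s2) = (s2 - s1) * (s3 - s2) := by
    rw [mul_sub, hdx, hdd]
    ring
  have e4 : d * (s4 - x) = (s4 - s1) * (s4 - s3) := by
    rw [mul_sub, hdx, hdd]
    ring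
  have p1 : 0 < x - s1 := by
    have : 0 < d * (x - s1) := by
      rw [e1]
      exact mul_pos (by linarith) (by linarith)
    exact (mul_pos_iff_of_pos_left hd).mp this
  have p2 : 0 < s3 - x := by
    have : 0 < d * (s3 - x) := by
      rw [e2]
      exact mul_pos (by linarith) (by linarith)
    exact (mul_pos_iff_of_pos_left hd).mp this
  have p3 : 0 < x - s2 := by
    have : 0 < d * (x - s2) := by
      rw [e3]
      exact mul_pos (by linarith) (by linarith)
    exact (mul_pos_iff_of_pos_left hd).mp this
  have p4 : 0 < s4 - x := by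
    have : 0 < d * (s4 - x) := by
      rw [e4]
      exact mul_pos (by linarith) (by linarith)
    exact (mul_pos_iff_of_pos_left hd).mp this
  have h13 : (s3 - s1) ≠ 0 := by linarith
  have h24 : (s4 - s2) ≠ 0 := by linarith
  have hl : (s1 + s3) * x - s1 * s3 = (s2 + s4) * x - s2 * s4 := by
    have : d = s2 + s4 - (s1 + s3) := by rw [hdd]; ring
    rw [this] at hdx
    linarith
  refine ⟨(a + x, b + ((s1 + s3) * x - s1 * s3)), ?_, ?_⟩
  · refine ⟨(s3 - x) / (s3 - s1), (x - s1) / (s3 - s1), ?_, ?_, ?_, ?_⟩
    · exact div_nonneg p2.le (by linarith)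
    · exact div_nonneg p1.le (by linarith)
    · field_simp
      ring
    · ext
      · simp only [par, Prod.smul_mk, Prod.mk_add_mk, smul_eq_mul]
        field_simp
        ring
      · simp only [par, Prod.smul_mk, Prod.mk_add_mk, smul_eq_mul]
        field_simp
        ring
  · rw [hl]
    refine ⟨(s4 - x) / (s4 - s2), (x - s2) / (s4 - s2), ?_, ?_, ?_, ?_⟩
    · exact div_nonneg p4.le (by linarith)
    · exact div_nonneg p3.le (by linarith)
    · field_simp
      ring
    · ext
      · simp only [par, Prod.smul_mk, Prod.mk_add_mk, smul_eq_mul]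
        field_simp
        ring
      · simp only [par, Prod.smul_mk, Prod.mk_add_mk, smul_eq_mul]
        field_simp
        ring

lemma finite_quad (A B C : ℝ) (h : A ≠ 0 ∨ B ≠ 0) : {s : ℝ | A * s ^ 2 + B * s + C = 0}.Finite := by
  set p : Polynomial ℝ := Polynomial.C A * Polynomial.X ^ 2 + Polynomial.C B * Polynomial.X
    + Polynomial.C C with hp
  have hp0 : p ≠ 0 := by
    intro h0
    have c2 : p.coeff 2 = A := by
      rw [hp]
      simp
    have c1 : p.coeff 1 = B := by
      rw [hp]
      simp [Polynomial.coeff_C]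
    rw [h0] at c2 c1
    simp only [Polynomial.coeff_zero] at c2 c1
    rcases h with h | h
    · exact h c2.symm
    · exact h c1.symm
  have := Polynomial.finite_setOfPred_isRoot hp0
  refine this.subset ?_
  intro s hs
  simp only [Set.mem_ofPred_eq] at hs ⊢
  rw [Polynomial.IsRoot, hp]
  simp [hs]

lemma exists_next (P : Finset (ℝ × ℝ)) (a b lo hi : ℝ) (h : lo < hi) :
    ∃ s : ℚ, lo < s ∧ (s : ℝ) < hi ∧ par a b s ∉ P ∧
      ∀ p ∈ P, ∀ q ∈ P, p ≠ q → det p q (par a b s) ≠ 0 := by
  classical
  set bad : Set ℝ := (⋃ p ∈ P, {s : ℝ | par a b s = p}) ∪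
    (⋃ p ∈ P, ⋃ q ∈ P, {s : ℝ | p ≠ q ∧ det p q (par a b s) = 0}) with hbad
  have hfin : bad.Finite := by
    rw [hbad]
    apply Set.Finite.union
    · apply Set.Finite.biUnion P.finite_toSet
      intro p _
      apply Set.Subsingleton.finite
      intro s hs t ht
      simp only [Set.mem_ofPred_eq] at hs ht
      exact par_inj (hs.trans ht.symm)
    · apply Set.Finite.biUnion P.finite_toSet
      intro p _
      apply Set.Finite.biUnion P.finite_toSet
      intro q _
      by_cases hpq : p = q
      · simp [hpq]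
      · have hor : (q.1 - p.1) ≠ 0 ∨ -(q.2 - p.2) ≠ 0 := by
          by_contra hcon
          push Not at hcon
          apply hpq
          ext
          · linarith [hcon.1]
          · linarith [hcon.2]
        refine (finite_quad (q.1 - p.1) (-(q.2 - p.2))
          ((q.1 - p.1) * (b - p.2) - (q.2 - p.2) * (a - p.1)) hor).subset ?_
        rintro s ⟨_, hs⟩
        simp only [det, par] at hs
        simp only [Set.mem_ofPred_eq]
        rw [← hs]
        ring
  obtain ⟨r1, hr1, hr1'⟩ := exists_rat_btwn h
  obtain ⟨r2, hr2, hr2'⟩ := exists_rat_btwn hr1'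
  have hr12 : r1 < r2 := by exact_mod_cast hr2
  have hinf : ((fun x : ℚ => (x : ℝ)) '' (Set.Ioo r1 r2)).Infinite := by
    apply Set.Infinite.image
    · intro x _ y _ hxy
      exact Rat.cast_injective hxy
    · exact Set.Ioo_infinite hr12
  obtain ⟨y, ⟨⟨s, hs, rfl⟩, hyb⟩⟩ := (hinf.sdiff hfin).nonempty
  simp only at hyb
  have hs1 : (r1 : ℝ) < s := by exact_mod_cast hs.1
  have hs2 : (s : ℝ) < r2 := by exact_mod_cast hs.2
  refine ⟨s, by linarith, by linarith, ?_, ?_⟩
  · intro hmem
    apply hyb
    rw [hbad]
    left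
    simp only [Set.mem_iUnion, Set.mem_ofPred_eq]
    exact ⟨_, hmem, rfl⟩
  · intro p hp q hq hpq hdet
    apply hyb
    rw [hbad]
    right
    simp only [Set.mem_iUnion, Set.mem_ofPred_eq]
    exact ⟨p, hp, q, hq, hpq, hdet⟩

lemma GeneralPosition.insert {P : Finset (ℝ × ℝ)} (h : GeneralPosition P) (x : ℝ × ℝ)
    (hx : ∀ p ∈ P, ∀ q ∈ P, p ≠ q → det p q x ≠ 0) : GeneralPosition (insert x P) := by
  intro p hp q hq r hr hpq hqr hpr
  rw [Finset.mem_insert] at hp hq hr
  have s1 : ∀ u v w : ℝ × ℝ, det u v w = - det u w v := by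
    intro u v w
    simp only [det]
    ring
  have s2 : ∀ u v w : ℝ × ℝ, det u v w = det v w u := by
    intro u v w
    simp only [det]
    ring
  by_cases hrx : r = x
  · subst hrx
    exact hx p (hp.resolve_left hpr) q (hq.resolve_left hqr) hpq
  · have hr' := hr.resolve_left hrx
    by_cases hqx : q = x
    · subst hqx
      rw [s1]
      exact neg_ne_zero.mpr (hx p (hp.resolve_left hpq) r hr' hpr)
    · have hq' := hq.resolve_left hqx
      by_cases hpx : p = x
      · subst hpx
        rw [s2]
        exact hx q hq' r hr' hqr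
      · exact h p (hp.resolve_left hpx) q hq' r hr' hpq hqr hpr

lemma exists_seq (W : Finset (ℝ × ℝ)) (hW : GeneralPosition W) (a b δ : ℝ) (hδ : 0 < δ) (n : ℕ) :
    ∃ s : ℕ → ℚ, ∃ lo : ℝ, 0 ≤ lo ∧ lo < δ ∧ (∀ t < n, (0 : ℝ) < s t ∧ (s t : ℝ) ≤ lo) ∧
      (∀ t t', t < t' → t' < n → s t < s t') ∧ (∀ t < n, par a b (s t) ∉ W) ∧
      GeneralPosition (W ∪ (Finset.range n).image (fun t => par a b (s t))) := by
  classical
  induction n with
  | zero =>
    refine ⟨fun _ => 0, 0, le_rfl, hδ, by simp, by simp, by simp, by simpa using hW⟩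
  | succ n ih =>
    obtain ⟨s, lo, h0, h1, h2, h3, h4, h5⟩ := ih
    obtain ⟨x, hx1, hx2, hx3, hx4⟩ :=
      exists_next (W ∪ (Finset.range n).image (fun t => par a b (s t))) a b lo δ h1
    have hup : ∀ t < n, Function.update s n x t = s t := by
      intro t ht
      rw [Function.update_of_ne (by omega)]
    have himg : (Finset.range (n + 1)).image (fun t => par a b (Function.update s n x t))
        = insert (par a b x) ((Finset.range n).image (fun t => par a b (s t))) := by
      rw [Finset.range_add_one, Finset.image_insert, Function.update_self]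
      congr 1
      apply Finset.image_congr
      intro t ht
      simp only [Finset.coe_range, Set.mem_Iio] at ht
      simp only
      rw [hup t ht]
    refine ⟨Function.update s n x, x, by linarith, hx2, ?_, ?_, ?_, ?_⟩
    · intro t ht
      rcases Nat.lt_succ_iff_lt_or_eq.mp ht with hlt | heq
      · rw [hup t hlt]
        exact ⟨(h2 t hlt).1, by linarith [(h2 t hlt).2]⟩
      · rw [heq, Function.update_self]
        exact ⟨by linarith, le_rfl⟩
    · intro t t' htt ht'
      rcases Nat.lt_succ_iff_lt_or_eq.mp ht' with hlt | heq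
      · rw [hup t' hlt, hup t (by omega)]
        exact h3 t t' htt hlt
      · rw [heq, Function.update_self, hup t (by omega)]
        have := (h2 t (by omega)).2
        have hlt : (s t : ℝ) < x := by linarith
        exact_mod_cast hlt
    · intro t ht
      rcases Nat.lt_succ_iff_lt_or_eq.mp ht with hlt | heq
      · rw [hup t hlt]
        exact h4 t hlt
      · rw [heq, Function.update_self]
        intro hmem
        exact hx3 (Finset.mem_union_left _ hmem)
    · rw [himg, Finset.union_insert]
      exact h5.insert _ hx4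

end Helper804Obstruct
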